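import Pool.Agent.PTBM.Prim

/-!
# The sets of primes defined by cubic residue symbols are primitive recursive
-/

set_option autoImplicit false

open NumberField IsDedekindDomain Finset
open scoped nonZeroDivisors Pointwise

namespace Pool.Agent.PTB.PRM

open Pool.Agent.Lib_helper18 Pool.Agent.Lib_helper18.Eis Pool.Agent.Lib_helper84.Cub
open Pool.Agent.PT Pool.Agent.PTE Pool.Agent.PT3 Pool.Agent.PTL Pool.Agent.PTN

/-- primitive recursive on the primes -/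
def DecP (A : Set ℕ) : Prop := ∃ p : ℕ → Prop, PrimrecPred p ∧ ∀ q : ℕ, q.Prime → (q ∈ A ↔ p q)

theorem DecP.of {A : Set ℕ} (h : PrimrecPred fun q => q ∈ A) : DecP A := ⟨_, h, fun _ _ => Iff.rfl⟩

theorem DecP.inter {A B : Set ℕ} (hA : DecP A) (hB : DecP B) : DecP (A ∩ B) := by
  obtain ⟨p, hp, h1⟩ := hA
  obtain ⟨p', hp', h2⟩ := hB
  exact ⟨_, hp.and hp', fun q hq => and_congr (h1 q hq) (h2 q hq)⟩

theorem DecP.union {A B : Set ℕ} (hA : DecP A) (hB : DecP B) : DecP (A ∪ B) := by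
  obtain ⟨p, hp, h1⟩ := hA
  obtain ⟨p', hp', h2⟩ := hB
  exact ⟨_, hp.or hp', fun q hq => or_congr (h1 q hq) (h2 q hq)⟩

theorem DecP.compl {A : Set ℕ} (hA : DecP A) : DecP Aᶜ := by
  obtain ⟨p, hp, h1⟩ := hA
  exact ⟨_, hp.not, fun q hq => not_congr (h1 q hq)⟩

theorem DecP.iInter {ι : Type} [Finite ι] {A : ι → Set ℕ} (hA : ∀ i, DecP (A i)) :
    DecP (⋂ i, A i) := by
  choose p hp h1 using hA
  refine ⟨_, pp_forall hp, fun q hq => ?_⟩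
  rw [Set.mem_iInter]
  exact forall_congr' fun i => h1 i q hq

theorem DecP.prim {A : Set ℕ} (hA : DecP A) : PrimrecPred fun q => q.Prime ∧ q ∈ A := by
  obtain ⟨p, hp, h1⟩ := hA
  exact (pp_prime.and hp).of_eq fun q => and_congr_right fun hq => (h1 q hq).symm

/-! ### Inert primes -/

theorem sym_nat (Q : ℕ) (x : Eis) : sym (Q : Eis) x = esym 1 Q ((Q * Q - 1) / 3) x := by
  have h1 : N (Q : Eis) = Q * Q := by
    unfold N
    rw [norm_natCast, ← Int.natCast_pow, Int.natAbs_natCast, pow_two]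
  unfold sym esym
  rw [h1, one_mul, one_mul]

/-- the symbol of the quotient -/
noncomputable def etau (θ : Eis) (Q k : ℕ) (p q p' q' r : ℤ) : ZMod 3 :=
  esym θ Q k (Lf p q 2 r) + esym θ Q k (Lf p' q' 1 r) - esym θ Q k (Lf p q 1 r) -
    esym θ Q k (Lf p' q' 2 r)

theorem lf_congr {p q : ℤ} {i : ℕ} {r r' : ℤ} {Q : ℕ} (h : (Q : ℤ) ∣ r - r') :
    (Q : Eis) ∣ Lf p q i r - Lf p q i r' := by
  obtain ⟨c, hc⟩ := h
  refine ⟨(q : Eis) * w ^ i * (c : Eis), ?_⟩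
  have h2 : (r : Eis) = (r' : Eis) + (Q : Eis) * (c : Eis) := by
    have h3 : r = r' + (Q : ℤ) * c := by linarith
    rw [h3]
    push_cast
    ring
  unfold Lf
  rw [h2]
  ring

theorem etau_congr {θ : Eis} {Q k : ℕ} {p q p' q' r r' : ℤ} (h : (Q : ℤ) ∣ r - r') :
    etau θ Q k p q p' q' r = etau θ Q k p q p' q' r' := by
  unfold etau
  rw [esym_congr (lf_congr (p := p) (q := q) (i := 2) h),
    esym_congr (lf_congr (p := p) (q := q) (i := 1) h),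
    esym_congr (lf_congr (p := p') (q := q') (i := 2) h),
    esym_congr (lf_congr (p := p') (q := q') (i := 1) h)]

theorem tauv_eq (Q : ℕ) (p q p' q' r : ℤ) :
    TAUV Q p q p' q' r = etau 1 Q ((Q * Q - 1) / 3) p q p' q' r := by
  unfold TAUV etau
  simp only [sym_nat]

section

variable {α : Type} [Primcodable α]

theorem z3_add {f g : α → ZMod 3} (hf : Primrec f) (hg : Primrec g) :
    Primrec fun a => f a + g a :=
  (Primrec.dom_finite fun x : ZMod 3 × ZMod 3 => x.1 + x.2).comp (hf.pair hg)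

theorem z3_sub {f g : α → ZMod 3} (hf : Primrec f) (hg : Primrec g) :
    Primrec fun a => f a - g a :=
  (Primrec.dom_finite fun x : ZMod 3 × ZMod 3 => x.1 - x.2).comp (hf.pair hg)

theorem lf_prim (p q : ℤ) (i : ℕ) {r : α → ℕ} (hr : Primrec r) :
    PE fun a => Lf p q i (r a : ℤ) :=
  (PE.const _).add ((PE.const _).mul (PE.int (PI.nat hr)))

theorem etau_prim {θ : α → Eis} {Q k r : α → ℕ} (hθ : PE θ) (hQ : Primrec Q) (hk : Primrec k)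
    (hr : Primrec r) (p q p' q' : ℤ) :
    Primrec fun a => etau (θ a) (Q a) (k a) p q p' q' (r a : ℤ) :=
  z3_sub (z3_sub (z3_add (esym_prim hθ hQ hk (lf_prim _ _ _ hr))
    (esym_prim hθ hQ hk (lf_prim _ _ _ hr))) (esym_prim hθ hQ hk (lf_prim _ _ _ hr)))
    (esym_prim hθ hQ hk (lf_prim _ _ _ hr))

/-- the condition on the matrix `τ` -/
theorem cond_prim {s : ℕ} {θ : α → Eis} {Q k : α → ℕ} (hθ : PE θ) (hQ : Primrec Q)
    (hk : Primrec k) (b : Fin s → ℤ) (p q p' q' : Fin s → Fin s → ℤ)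
    (τ : Fin s → Fin s → ZMod 3) :
    PrimrecPred fun a => ∀ j i, j ≠ i → ∀ r < Q a, (Q a : ℤ) ∣ (r : ℤ) ^ 3 - b j →
      τ j i = etau (θ a) (Q a) (k a) (p j i) (q j i) (p' j i) (q' j i) (r : ℤ) := by
  refine pp_forall fun j => pp_forall fun i => pp_imp (pp_const _) (pp_forall_lt hQ (pp_imp ?_ ?_))
  · refine PI.dvd (hQ.comp Primrec.fst) (PI.sub ?_ (PI.const _))
    have h1 : PI fun x : α × ℕ => (x.2 : ℤ) := PI.nat Primrec.snd
    exact ((h1.mul h1).mul h1).congr fun x => by ring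
  · refine (pp_eq (etau_prim (θ := fun x : α × ℕ => θ x.1) (Q := fun x : α × ℕ => Q x.1)
      (k := fun x : α × ℕ => k x.1) (r := fun x : α × ℕ => x.2) ?_ (hQ.comp Primrec.fst)
      (hk.comp Primrec.fst) Primrec.snd (p j i) (q j i) (p' j i) (q' j i)) (τ j i)).of_eq
      fun x => eq_comm
    obtain ⟨g, hg, hgθ⟩ := hθ.exists
    have h2 := pe_vl (hg.comp (Primrec.fst (α := α) (β := ℕ)))
    simp only [← hgθ] at h2
    exact h2

end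

/-- integers and residues -/
theorem cond_iff {s : ℕ} {θ : Eis} {Q k : ℕ} (hQ : 0 < Q) (b : Fin s → ℤ)
    (p q p' q' : Fin s → Fin s → ℤ) (τ : Fin s → Fin s → ZMod 3) :
    (∀ j i, j ≠ i → ∀ r : ℤ, (Q : ℤ) ∣ r ^ 3 - b j →
      τ j i = etau θ Q k (p j i) (q j i) (p' j i) (q' j i) r) ↔
    ∀ j i, j ≠ i → ∀ r < Q, (Q : ℤ) ∣ (r : ℤ) ^ 3 - b j →
      τ j i = etau θ Q k (p j i) (q j i) (p' j i) (q' j i) (r : ℤ) := by
  constructor
  · intro h j i hji r _ hr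
    exact h j i hji r hr
  · intro h j i hji r hr
    have hQ' : (0 : ℤ) < Q := by exact_mod_cast hQ
    obtain ⟨r0, hr0⟩ := Int.eq_ofNat_of_zero_le (Int.emod_nonneg r hQ'.ne')
    have h1 : r0 < Q := by
      have h2 := Int.emod_lt_of_pos r hQ'
      rw [hr0] at h2
      exact_mod_cast h2
    have h3 : (Q : ℤ) ∣ r - (r0 : ℤ) := by
      rw [← hr0]
      exact Int.dvd_self_sub_emod
    have h4 : (Q : ℤ) ∣ (r0 : ℤ) ^ 3 - b j := by
      have h5 : (r0 : ℤ) ^ 3 - b j = (r ^ 3 - b j) - (r ^ 3 - (r0 : ℤ) ^ 3) := by ring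
      rw [h5]
      exact dvd_sub hr (h3.trans (sub_dvd_pow_sub_pow r (r0 : ℤ) 3))
    rw [h j i hji r0 h1 h4]
    exact (etau_congr h3).symm

/-- residue classes -/
theorem unit_iff {f : ℕ} (hf : 0 < f) (Q : ℕ) (R : (ZMod f)ˣ → Prop) :
    (∃ hQ : Q.Coprime f, R (ZMod.unitOfCoprime Q hQ)) ↔
      ∃ u : (ZMod f)ˣ, Q % f = (u : ZMod f).val ∧ R u := by
  have : NeZero f := ⟨hf.ne'⟩
  constructor
  · rintro ⟨hQ, h⟩
    refine ⟨_, ?_, h⟩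
    rw [ZMod.coe_unitOfCoprime, ZMod.val_natCast]
  · rintro ⟨u, hu, h⟩
    have h1 : (Q : ZMod f) = (u : ZMod f) := by
      apply ZMod.val_injective
      rw [ZMod.val_natCast, hu]
    have hQ : Q.Coprime f := (ZMod.isUnit_iff_coprime Q f).1 (by rw [h1]; exact u.isUnit)
    refine ⟨hQ, ?_⟩
    have h2 : ZMod.unitOfCoprime Q hQ = u := by
      apply Units.ext
      rw [ZMod.coe_unitOfCoprime, h1]
    rw [h2]
    exact h

theorem unit_prim {f : ℕ} (hf : 0 < f) (u : (ZMod f)ˣ) :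
    PrimrecPred fun Q : ℕ => Q % f = (u : ZMod f).val :=
  pp_eq (Primrec.nat_mod.comp Primrec.id (Primrec.const f)) _

/-- the sets for the inert primes -/
theorem g2_prim {s f : ℕ} (hf : 0 < f) (b : Fin s → ℤ) (p q p' q' : Fin s → Fin s → ℤ)
    (K : (ZMod f)ˣ → Prop) (R : (ZMod f)ˣ → (Fin s → Fin s → ZMod 3) → Prop) :
    PrimrecPred fun Q : ℕ => ∃ hQ : Q.Coprime f, Q % 3 = 2 ∧ K (ZMod.unitOfCoprime Q hQ) ∧
      ∀ τ : Fin s → Fin s → ZMod 3,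
        (∀ j i, j ≠ i → ∀ r : ℤ, (Q : ℤ) ∣ r ^ 3 - b j →
          τ j i = TAUV Q (p j i) (q j i) (p' j i) (q' j i) r) →
        R (ZMod.unitOfCoprime Q hQ) τ := by
  have : NeZero f := ⟨hf.ne'⟩
  have h1 : PrimrecPred fun Q : ℕ => ∃ u : (ZMod f)ˣ, Q % f = (u : ZMod f).val ∧ (Q % 3 = 2 ∧
      K u ∧ ∀ τ : Fin s → Fin s → ZMod 3, (∀ j i, j ≠ i → ∀ r < Q, (Q : ℤ) ∣ (r : ℤ) ^ 3 - b j →
        τ j i = etau 1 Q ((Q * Q - 1) / 3) (p j i) (q j i) (p' j i) (q' j i) (r : ℤ)) → R u τ) := by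
    refine pp_exists fun u => (unit_prim hf u).and (PrimrecPred.and ?_ (PrimrecPred.and ?_ ?_))
    · exact pp_eq (Primrec.nat_mod.comp Primrec.id (Primrec.const 3)) 2
    · exact pp_const _
    · refine pp_forall fun τ => pp_imp ?_ (pp_const _)
      refine cond_prim (α := ℕ) (θ := fun _ => 1) (Q := fun Q => Q)
        (k := fun Q => (Q * Q - 1) / 3) (PE.const 1) Primrec.id ?_ b p q p' q' τ
      exact Primrec.nat_div.comp (Primrec.nat_sub.comp (Primrec.nat_mul.comp Primrec.id Primrec.id)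
        (Primrec.const 1)) (Primrec.const 3)
  refine h1.of_eq fun Q => ?_
  rw [← unit_iff hf Q (fun u => Q % 3 = 2 ∧ K u ∧ ∀ τ : Fin s → Fin s → ZMod 3,
    (∀ j i, j ≠ i → ∀ r < Q, (Q : ℤ) ∣ (r : ℤ) ^ 3 - b j →
      τ j i = etau 1 Q ((Q * Q - 1) / 3) (p j i) (q j i) (p' j i) (q' j i) (r : ℤ)) → R u τ)]
  refine exists_congr fun hQ => and_congr_right fun hQ3 => and_congr_right fun _ => ?_
  refine forall_congr' fun τ => ?_
  simp only [tauv_eq]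
  rw [cond_iff (by omega)]

theorem sp_prim {s f m t : ℕ} (hf : 0 < f) (b : Fin s → ℤ) (p q p' q' : Fin s → Fin s → ℤ)
    (κ : (ZMod f)ˣ →* Multiplicative (Fin (m + 1) → ZMod 3)) (c : Fin (m + 1) → ZMod 3)
    (C : Fin s → Fin s → ZMod 3) (Φ : (ZMod f)ˣ →* Multiplicative (Fin s → Fin s → ZMod 3)) :
    DecP (SP b p q p' q' t κ c C Φ) :=
  DecP.of (g2_prim hf b p q p' q' (fun u => (κ u).toAdd = c)
    fun u τ => t ≤ s - (alt (C + (Φ u).toAdd - τ)).rank)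

theorem sm_prim {s f m t : ℕ} (hf : 0 < f) (b : Fin s → ℤ) (p q p' q' : Fin s → Fin s → ℤ)
    (κ : (ZMod f)ˣ →* Multiplicative (Fin (m + 1) → ZMod 3)) (c : Fin (m + 1) → ZMod 3)
    (C : Fin s → Fin s → ZMod 3) (Φ : (ZMod f)ˣ →* Multiplicative (Fin s → Fin s → ZMod 3)) :
    DecP (SM b p q p' q' t κ c C Φ) :=
  DecP.of (g2_prim hf b p q p' q' (fun u => (κ u).toAdd = -c)
    fun u τ => t ≤ s - (alt (C - (Φ u).toAdd + τ)).rank)

/-! ### Split primes -/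

theorem exists_z (hSPLT : SPLT) {Q : ℕ} {ρ : PP} (hQ : Q.Prime) (h1 : Q % 3 = 1)
    (h : (Q : Eis) = ρ.1 * conj ρ.1) : ∃ z : ℕ, z < Q ∧ ρ.1 ∣ w - (z : Eis) := by
  obtain ⟨-, ⟨ρ', hρ'⟩, -, hdvd, -, -⟩ := hSPLT.2 Q ρ hQ h1 h
  have hQ' : (0 : ℤ) < Q := by exact_mod_cast hQ.pos
  have hpi : Prime (Q : ℤ) := Nat.prime_iff_prime_int.1 hQ
  -- the second coordinate of `ρ` is prime to `Q`
  have hb : ¬ (Q : ℤ) ∣ ρ.1.im := by
    intro hb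
    have h2 : ρ.1 ∣ (ρ.1.im : Eis) := (hdvd _).2 hb
    have h3 : ρ.1 ∣ (ρ.1.re : Eis) := by
      have h4 : (ρ.1.re : Eis) = ρ.1 - (ρ.1.im : Eis) * w := by
        conv_rhs => rw [eq_re_add_im ρ.1]
        simp
      rw [h4]
      exact dvd_sub (dvd_refl _) (Dvd.dvd.mul_right h2 _)
    have h5 : (Q : ℤ) ∣ ρ.1.re := (hdvd _).1 h3
    have h6 : (Q : Eis) ∣ ρ.1 := natCast_dvd_iff.2 ⟨h5, hb⟩
    have h7 : ρ.1 * conj ρ.1 ∣ ρ.1 * 1 := by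
      rw [← h, mul_one]
      exact h6
    have h8 : conj ρ.1 ∣ 1 := (mul_dvd_mul_iff_left ρ.2.1.ne_zero).1 h7
    rw [← hρ'] at h8
    exact ρ'.2.1.not_isUnit (isUnit_of_dvd_one h8)
  have hcop : IsCoprime (ρ.1.im) (Q : ℤ) := by
    rw [isCoprime_comm]
    exact (hpi.coprime_iff_not_dvd).2 hb
  obtain ⟨x, y, hxy⟩ := hcop
  obtain ⟨z, hz⟩ := Int.eq_ofNat_of_zero_le (Int.emod_nonneg (-(x * ρ.1.re)) hQ'.ne')
  refine ⟨z, ?_, ?_⟩
  · have h2 := Int.emod_lt_of_pos (-(x * ρ.1.re)) hQ'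
    rw [hz] at h2
    exact_mod_cast h2
  · have h3 : (Q : ℤ) ∣ (-(x * ρ.1.re)) - (z : ℤ) := by
      rw [← hz]
      exact Int.dvd_self_sub_emod
    have h4 : (Q : ℤ) ∣ ρ.1.re + ρ.1.im * z := by
      obtain ⟨k, hk⟩ := h3
      refine ⟨ρ.1.re * y - ρ.1.im * k, ?_⟩
      linear_combination (-ρ.1.re) * hxy - ρ.1.im * hk
    have h5 : ρ.1 ∣ ((ρ.1.re + ρ.1.im * z : ℤ) : Eis) := (hdvd _).2 h4
    have h6 : ρ.1 ∣ (ρ.1.im : Eis) * (w - (z : Eis)) := by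
      have h7 : (ρ.1.im : Eis) * (w - (z : Eis)) = ρ.1 - ((ρ.1.re + ρ.1.im * z : ℤ) : Eis) := by
        ext <;> simp
      rw [h7]
      exact dvd_sub (dvd_refl _) h5
    rcases ρ.2.1.dvd_or_dvd h6 with h8 | h8
    · exact absurd ((hdvd _).1 h8) hb
    · exact h8

theorem exists_rho (hSPLT : SPLT) {Q z : ℕ} (hQ : Q.Prime) (h1 : Q % 3 = 1)
    (h : (Q : Eis) ∣ (w - (z : Eis)) * (w ^ 2 - (z : Eis))) :
    ∃ ρ : PP, (Q : Eis) = ρ.1 * conj ρ.1 ∧ ρ.1 ∣ w - (z : Eis) := by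
  obtain ⟨ρ, hρ⟩ := hSPLT.1 Q hQ h1
  have h2 : ρ.1 ∣ (w - (z : Eis)) * (w ^ 2 - (z : Eis)) :=
    (Dvd.intro _ hρ.symm).trans h
  rcases ρ.2.1.dvd_or_dvd h2 with h3 | h3
  · exact ⟨ρ, hρ, h3⟩
  · obtain ⟨-, ⟨ρ', hρ'⟩, -⟩ := hSPLT.2 Q ρ hQ h1 hρ
    refine ⟨ρ', ?_, ?_⟩
    · rw [hρ', conj_conj, hρ, mul_comm]
    · rw [hρ']
      have h4 := conj_dvd h3
      rw [map_sub, ← conj_w, conj_conj, conj_natCast] at h4
      exact h4

theorem dvd_z {Q z : ℕ} {ρ : PP} (h : (Q : Eis) = ρ.1 * conj ρ.1) (hz : ρ.1 ∣ w - (z : Eis)) :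
    (Q : Eis) ∣ (w - (z : Eis)) * (w ^ 2 - (z : Eis)) := by
  rw [h]
  have h4 := conj_dvd hz
  rw [map_sub, conj_w, conj_natCast] at h4
  exact mul_dvd_mul hz h4

theorem dvd_iff (hSPLT : SPLT) {Q z : ℕ} {ρ : PP} (hQ : Q.Prime) (h1 : Q % 3 = 1)
    (h : (Q : Eis) = ρ.1 * conj ρ.1) (hz : ρ.1 ∣ w - (z : Eis)) (x : Eis) :
    (Q : Eis) ∣ (w ^ 2 - (z : Eis)) * x ↔ ρ.1 ∣ x := by
  obtain ⟨-, -, -, hdvd, -, -⟩ := hSPLT.2 Q ρ hQ h1 h
  constructor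
  · intro h2
    have h3 : ρ.1 ∣ (w ^ 2 - (z : Eis)) * x := (Dvd.intro _ h.symm).trans h2
    rcases ρ.2.1.dvd_or_dvd h3 with h4 | h4
    · exfalso
      have h5 : ρ.1 ∣ 1 - w := by
        have h6 : ρ.1 ∣ (w ^ 2 - (z : Eis)) - (w - (z : Eis)) := dvd_sub h4 hz
        have h7 : 1 - w = (w ^ 2 - (z : Eis) - (w - (z : Eis))) * (-w ^ 2) := by
          have h8 : (w ^ 2 - (z : Eis) - (w - (z : Eis))) * (-w ^ 2) = w ^ 3 - w ^ 3 * w := by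
            ring
          rw [h8, w_cube, one_mul]
        rw [h7]
        exact Dvd.dvd.mul_right h6 _
      have h6 : ρ.1 ∣ ((3 : ℤ) : Eis) := by
        rw [← three_eq_cast]
        refine h5.trans ?_
        rw [← lam_eq]
        exact lam_dvd_three
      have h7 := (hdvd 3).1 h6
      have h8 : Q ∣ 3 := by exact_mod_cast h7
      have h9 := (Nat.prime_dvd_prime_iff_eq hQ Nat.prime_three).1 h8
      omega
    · exact h4
  · intro h2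
    rw [h, mul_comm ρ.1]
    refine mul_dvd_mul ?_ h2
    have h4 := conj_dvd hz
    rwa [map_sub, conj_w, conj_natCast] at h4

theorem sym_z (hSPLT : SPLT) {Q z : ℕ} {ρ : PP} (hQ : Q.Prime) (h1 : Q % 3 = 1)
    (h : (Q : Eis) = ρ.1 * conj ρ.1) (hz : ρ.1 ∣ w - (z : Eis)) (x : Eis) :
    sym ρ.1 x = esym (w ^ 2 - (z : Eis)) Q ((Q - 1) / 3) x := by
  have hN : N ρ.1 = Q := by
    rw [mul_conj] at h
    have h2 : ((Q : ℤ) : Eis) = (ρ.1.norm : Eis) := by rw [← h]; rfl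
    have h3 : (Q : ℤ) = ρ.1.norm := by
      have h4 := congrArg Eis.re h2
      simpa using h4
    unfold N
    rw [← h3, Int.natAbs_natCast]
  have k1 := propext (dvd_iff hSPLT hQ h1 h hz (x ^ ((Q - 1) / 3) - 1))
  have k2 := propext (dvd_iff hSPLT hQ h1 h hz (x ^ ((Q - 1) / 3) - w))
  unfold sym esym
  rw [hN, k1, k2]

theorem tauvs_z (hSPLT : SPLT) {Q z : ℕ} {ρ : PP} (hQ : Q.Prime) (h1 : Q % 3 = 1)
    (h : (Q : Eis) = ρ.1 * conj ρ.1) (hz : ρ.1 ∣ w - (z : Eis)) (p q p' q' r : ℤ) :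
    TAUVS ρ.1 p q p' q' r = etau (w ^ 2 - (z : Eis)) Q ((Q - 1) / 3) p q p' q' r := by
  unfold TAUVS etau
  simp only [sym_z hSPLT hQ h1 h hz]

/-- from the primes of `Z[w]` to the roots of `z ^ 2 + z + 1` -/
theorem rho_iff (hSPLT : SPLT) {Q : ℕ} (hQ : Q.Prime) (h1 : Q % 3 = 1) (R : PP → Prop)
    (R' : ℕ → Prop) (hR : ∀ (ρ : PP) (z : ℕ), (Q : Eis) = ρ.1 * conj ρ.1 →
      ρ.1 ∣ w - (z : Eis) → (R ρ ↔ R' z)) :
    (∃ ρ : PP, (Q : Eis) = ρ.1 * conj ρ.1 ∧ R ρ) ↔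
      ∃ z < Q, (Q : Eis) ∣ (w - (z : Eis)) * (w ^ 2 - (z : Eis)) ∧ R' z := by
  constructor
  · rintro ⟨ρ, hρ, h⟩
    obtain ⟨z, hz, hz2⟩ := exists_z hSPLT hQ h1 hρ
    exact ⟨z, hz, dvd_z hρ hz2, (hR ρ z hρ hz2).1 h⟩
  · rintro ⟨z, -, hz, h⟩
    obtain ⟨ρ, hρ, hρ2⟩ := exists_rho hSPLT hQ h1 hz
    exact ⟨ρ, hρ, (hR ρ z hρ hρ2).2 h⟩

/-- the cofactor -/
theorem theta_prim : PE fun x : ℕ × ℕ => w ^ 2 - (x.2 : Eis) :=
  (PE.const (w ^ 2)).sub (PE.int (PI.nat Primrec.snd))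

theorem zdvd_prim : PrimrecPred fun x : ℕ × ℕ =>
    (x.1 : Eis) ∣ (w - (x.2 : Eis)) * (w ^ 2 - (x.2 : Eis)) :=
  PE.dvd Primrec.fst (((PE.const w).sub (PE.int (PI.nat Primrec.snd))).mul theta_prim)

theorem k_prim : Primrec fun x : ℕ × ℕ => (x.1 - 1) / 3 :=
  Primrec.nat_div.comp (Primrec.nat_sub.comp Primrec.fst (Primrec.const 1)) (Primrec.const 3)

theorem zsym_prim (x : Eis) (e : ZMod 3) : PrimrecPred fun y : ℕ × ℕ =>
    esym (w ^ 2 - (y.2 : Eis)) y.1 ((y.1 - 1) / 3) x = e :=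
  pp_eq (esym_prim theta_prim Primrec.fst k_prim (PE.const x)) e

/-- the sets for the split primes -/
theorem g1_prim (hSPLT : SPLT) {s f : ℕ} (hf : 0 < f) (b : Fin (s + 1) → ℤ)
    (p q p' q' : Fin s → Fin s → ℤ)
    (K : (ZMod f)ˣ → Prop) (R : (ZMod f)ˣ → (Fin s → Fin s → ZMod 3) → Prop) :
    DecP {Q : ℕ | ∃ (hQ : Q.Coprime f) (ρ : PP), (Q % 3 = 1 ∧ K (ZMod.unitOfCoprime Q hQ) ∧
      (Q : Eis) = ρ.1 * conj ρ.1 ∧
      (∀ j : Fin s, sym ρ.1 (b j.castSucc : Eis) = 0) ∧ sym ρ.1 (b (Fin.last s) : Eis) ≠ 0) ∧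
      ∀ τ : Fin s → Fin s → ZMod 3,
        (∀ j i, j ≠ i → ∀ r : ℤ, (Q : ℤ) ∣ r ^ 3 - b j.castSucc →
          τ j i = TAUVS ρ.1 (p j i) (q j i) (p' j i) (q' j i) r) →
        R (ZMod.unitOfCoprime Q hQ) τ} := by
  have : NeZero f := ⟨hf.ne'⟩
  refine ⟨fun Q => ∃ u : (ZMod f)ˣ, Q % f = (u : ZMod f).val ∧ (Q % 3 = 1 ∧ K u ∧
    ∃ z < Q, (Q : Eis) ∣ (w - (z : Eis)) * (w ^ 2 - (z : Eis)) ∧
      ((∀ j : Fin s, esym (w ^ 2 - (z : Eis)) Q ((Q - 1) / 3) (b j.castSucc : Eis) = 0) ∧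
      (¬ esym (w ^ 2 - (z : Eis)) Q ((Q - 1) / 3) (b (Fin.last s) : Eis) = 0) ∧
      ∀ τ : Fin s → Fin s → ZMod 3, (∀ j i, j ≠ i → ∀ r < Q,
        (Q : ℤ) ∣ (r : ℤ) ^ 3 - b j.castSucc → τ j i =
        etau (w ^ 2 - (z : Eis)) Q ((Q - 1) / 3) (p j i) (q j i) (p' j i) (q' j i) (r : ℤ)) →
        R u τ)), ?_, ?_⟩
  · refine pp_exists fun u => (unit_prim hf u).and (PrimrecPred.and ?_ (PrimrecPred.and ?_ ?_))
    · exact pp_eq (Primrec.nat_mod.comp Primrec.id (Primrec.const 3)) 1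
    · exact pp_const _
    · refine pp_exists_lt Primrec.id (zdvd_prim.and (PrimrecPred.and ?_ (PrimrecPred.and ?_ ?_)))
      · exact pp_forall fun j => zsym_prim _ _
      · exact (zsym_prim _ _).not
      · refine pp_forall fun τ => pp_imp ?_ (pp_const _)
        exact cond_prim (α := ℕ × ℕ) (θ := fun x => w ^ 2 - (x.2 : Eis)) (Q := fun x => x.1)
          (k := fun x => (x.1 - 1) / 3) theta_prim Primrec.fst k_prim
          (fun j => b j.castSucc) p q p' q' τ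
  · intro Q hQ
    have h1 : Q ∈ {Q : ℕ | ∃ (hQ : Q.Coprime f) (ρ : PP), (Q % 3 = 1 ∧
      K (ZMod.unitOfCoprime Q hQ) ∧ (Q : Eis) = ρ.1 * conj ρ.1 ∧
      (∀ j : Fin s, sym ρ.1 (b j.castSucc : Eis) = 0) ∧ sym ρ.1 (b (Fin.last s) : Eis) ≠ 0) ∧
      ∀ τ : Fin s → Fin s → ZMod 3,
        (∀ j i, j ≠ i → ∀ r : ℤ, (Q : ℤ) ∣ r ^ 3 - b j.castSucc →
          τ j i = TAUVS ρ.1 (p j i) (q j i) (p' j i) (q' j i) r) →
        R (ZMod.unitOfCoprime Q hQ) τ} ↔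
        ∃ u : (ZMod f)ˣ, Q % f = (u : ZMod f).val ∧ (Q % 3 = 1 ∧ K u ∧ ∃ ρ : PP,
          (Q : Eis) = ρ.1 * conj ρ.1 ∧
          ((∀ j : Fin s, sym ρ.1 (b j.castSucc : Eis) = 0) ∧
          (¬ sym ρ.1 (b (Fin.last s) : Eis) = 0) ∧
          ∀ τ : Fin s → Fin s → ZMod 3,
            (∀ j i, j ≠ i → ∀ r : ℤ, (Q : ℤ) ∣ r ^ 3 - b j.castSucc →
              τ j i = TAUVS ρ.1 (p j i) (q j i) (p' j i) (q' j i) r) → R u τ)) := by
      refine Iff.trans ?_ (unit_iff hf Q fun u => Q % 3 = 1 ∧ K u ∧ ∃ ρ : PP,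
          (Q : Eis) = ρ.1 * conj ρ.1 ∧
          ((∀ j : Fin s, sym ρ.1 (b j.castSucc : Eis) = 0) ∧
          (¬ sym ρ.1 (b (Fin.last s) : Eis) = 0) ∧
          ∀ τ : Fin s → Fin s → ZMod 3,
            (∀ j i, j ≠ i → ∀ r : ℤ, (Q : ℤ) ∣ r ^ 3 - b j.castSucc →
              τ j i = TAUVS ρ.1 (p j i) (q j i) (p' j i) (q' j i) r) → R u τ))
      refine exists_congr fun hQ => ?_
      constructor
      · rintro ⟨ρ, ⟨a1, a2, a3, a4, a5⟩, a6⟩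
        exact ⟨a1, a2, ρ, a3, a4, a5, a6⟩
      · rintro ⟨a1, a2, ρ, a3, a4, a5, a6⟩
        exact ⟨ρ, ⟨a1, a2, a3, a4, a5⟩, a6⟩
    refine h1.trans ?_
    refine exists_congr fun u => and_congr_right fun _ => and_congr_right fun hQ3 =>
      and_congr_right fun _ => ?_
    refine rho_iff hSPLT hQ hQ3 _ _ fun ρ z hρ hz => ?_
    simp only [sym_z hSPLT hQ hQ3 hρ hz, tauvs_z hSPLT hQ hQ3 hρ hz]
    refine and_congr_right fun _ => and_congr_right fun _ => forall_congr' fun τ => ?_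
    rw [cond_iff hQ.pos (fun j => b j.castSucc)]

theorem spu_prim (hSPLT : SPLT) {s f m t : ℕ} (hf : 0 < f) (b : Fin (s + 1) → ℤ)
    (p q p' q' : Fin (s + 1) → Fin (s + 1) → ℤ)
    (κ : (ZMod f)ˣ →* Multiplicative (Fin (m + 1) → ZMod 3)) (c : Fin (m + 1) → ZMod 3)
    (C : Fin s → Fin s → ZMod 3) (Φ : (ZMod f)ˣ →* Multiplicative (Fin s → Fin s → ZMod 3)) :
    DecP (SPU b p q p' q' t κ c C Φ) :=
  g1_prim hSPLT hf b (rs p) (rs q) (rs p') (rs q') (fun u => (κ u).toAdd = c)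
    fun u τ => t ≤ s - (alt (C + (Φ u).toAdd + τ)).rank

theorem smu_prim (hSPLT : SPLT) {s f m t : ℕ} (hf : 0 < f) (b : Fin (s + 1) → ℤ)
    (p q p' q' : Fin (s + 1) → Fin (s + 1) → ℤ)
    (κ : (ZMod f)ˣ →* Multiplicative (Fin (m + 1) → ZMod 3)) (c : Fin (m + 1) → ZMod 3)
    (C : Fin s → Fin s → ZMod 3) (Φ : (ZMod f)ˣ →* Multiplicative (Fin s → Fin s → ZMod 3)) :
    DecP (SMU b p q p' q' t κ c C Φ) :=
  g1_prim hSPLT hf b (rs p) (rs q) (rs p') (rs q') (fun u => (κ u).toAdd = -c)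
    fun u τ => t ≤ s - (alt (C - (Φ u).toAdd - τ)).rank

/-- residue classes modulo `3` -/
theorem mod_prim (a : ℕ) : DecP {q : ℕ | q % 3 = a} :=
  DecP.of (pp_eq (Primrec.nat_mod.comp Primrec.id (Primrec.const 3)) a)

theorem pat_prim (hSPLT : SPLT) {d : ℕ} (v : Fin d → ℤ) (δ : Fin d → ZMod 3) :
    DecP ({q : ℕ | q % 3 = 1} ∩ Pat v δ) := by
  refine ⟨fun Q => Q % 3 = 1 ∧ ∃ z < Q, (Q : Eis) ∣ (w - (z : Eis)) * (w ^ 2 - (z : Eis)) ∧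
    ∃ ε : ZMod 3, ε ≠ 0 ∧ ∀ i, esym (w ^ 2 - (z : Eis)) Q ((Q - 1) / 3) (v i : Eis) = ε * δ i,
    ?_, ?_⟩
  · refine (pp_eq (Primrec.nat_mod.comp Primrec.id (Primrec.const 3)) 1).and
      (pp_exists_lt Primrec.id (zdvd_prim.and (pp_exists (ι := ZMod 3) fun ε =>
        (pp_const _).and (pp_forall fun i => zsym_prim _ _))))
  · intro Q hQ
    refine and_congr_right fun hQ3 => ?_
    refine rho_iff hSPLT hQ hQ3 _ _ fun ρ z hρ hz => ?_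
    simp only [sym_z hSPLT hQ hQ3 hρ hz]

/-! ### Classes -/

theorem inct_prim {m : ℕ} (E : ℕ) (π : Fin m → PP) (w0 : ZMod 3) (c : Fin m → ZMod 3)
    (p : Fin m → ℕ) (hp : ∀ i, (p i).Prime) (hπ : ∀ i, (p i : Eis) = (π i).1 * conj (π i).1) :
    DecP {q : ℕ | InCT E π w0 c q} := by
  have hpos : 0 < 9 * ∏ i, p i := Nat.mul_pos (by norm_num) (Finset.prod_pos fun i _ => (hp i).pos)
  refine DecP.of (pp_periodic hpos fun q => ?_)
  obtain ⟨F, hF⟩ : ∃ F, F = 9 * ∏ i, p i := ⟨_, rfl⟩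
  rw [← hF]
  have hd : ∀ k : ℕ, k ∣ F → (k : ℤ) ∣ (q : ℤ) - ((q % F : ℕ) : ℤ) := by
    intro k hk
    have h1 : (F : ℤ) ∣ (q : ℤ) - ((q % F : ℕ) : ℤ) := by
      rw [Int.natCast_mod]
      exact Int.dvd_self_sub_emod
    exact (Int.natCast_dvd_natCast.2 hk).trans h1
  have h9 : (9 : ℤ) ∣ ((q : ℤ) ^ E) ^ 2 - (((q % F : ℕ) : ℤ) ^ E) ^ 2 := by
    rw [← pow_mul, ← pow_mul]
    exact (hd 9 (by rw [hF]; exact Dvd.intro _ rfl)).trans (sub_dvd_pow_sub_pow _ _ _)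
  have hw : wt (((q : ℤ) ^ E) ^ 2) = wt ((((q % F : ℕ) : ℤ) ^ E) ^ 2) := by
    obtain ⟨k, hk⟩ := h9
    have h2 : ((q : ℤ) ^ E) ^ 2 = (((q % F : ℕ) : ℤ) ^ E) ^ 2 + 9 * k := by linarith
    unfold wt
    rw [h2]
    have h3 : ((((q % F : ℕ) : ℤ) ^ E) ^ 2 + 9 * k - 1) / 3 =
        ((((q % F : ℕ) : ℤ) ^ E) ^ 2 - 1) / 3 + 3 * k := by omega
    rw [h3]
    push_cast
    have h4 : (3 : ZMod 3) = 0 := by decide
    rw [h4]
    ring
  have hs : ∀ i, sym (π i).1 (q : Eis) = sym (π i).1 ((q % F : ℕ) : Eis) := by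
    intro i
    apply sym_congr
    have h2 : (p i : Eis) ∣ (q : Eis) - ((q % F : ℕ) : Eis) := by
      rw [natCast_dvd_iff]
      constructor
      · have h3 := hd (p i) (by
          rw [hF]
          exact Dvd.dvd.mul_left (Finset.dvd_prod_of_mem p (mem_univ i)) _)
        simpa using h3
      · simp
    exact (Dvd.intro _ (hπ i).symm).trans h2
  show (wt (((q : ℤ) ^ E) ^ 2) = w0 ∧ ∀ i, (E : ZMod 3) * sym (π i).1 (q : Eis) = c i) ↔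
    (wt ((((q % F : ℕ) : ℤ) ^ E) ^ 2) = w0 ∧
      ∀ i, (E : ZMod 3) * sym (π i).1 ((q % F : ℕ) : Eis) = c i)
  exact and_congr (by rw [hw]) (forall_congr' fun i => by rw [hs i])

end Pool.Agent.PTB.PRM
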