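import Pool.Agent.PTDM.C48

/-!
# Both twists `n q` and `n q²` without rational points, for a positive proportion of the primes `q`
-/

set_option autoImplicit false

open NumberField IsDedekindDomain Finset
open scoped nonZeroDivisors Pointwise

namespace Pool.Agent.PTB

open Pool.Agent.Lib_helper18 Pool.Agent.Lib_helper18.Eis Pool.Agent.Lib_helper84.Cub
open Pool.Agent.PT Pool.Agent.PTE Pool.Agent.PT3 Pool.Agent.PTL Pool.Agent.PTN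
open BDENS

/-! ### The class -/

theorem exists_w : ∀ t : ZMod 3, ∃ w : ZMod 3, t + w ≠ 0 ∧ t + -w ≠ 0 := by decide

/-- There is a class `(w0, c)` such that `v = 0` for `(w0, c)` and for `-(w0, c)`. -/
theorem exists_class (hEDET : EDET) (h n : ℕ) {m k : ℕ} (π : Fin m → PP) (p e : Fin m → ℕ)
    (r : Fin k → ℕ) :
    ∃ (w0 : ZMod 3) (c : Fin m → ZMod 3), wt ((n : ℤ) ^ 2) + w0 ≠ 0 ∧
      wt ((n : ℤ) ^ 2) + -w0 ≠ 0 ∧ vN h n π p e r w0 c = 0 ∧ vN h n π p e r (-w0) (-c) = 0 := by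
  obtain ⟨w0, h1, h2⟩ := exists_w (wt ((n : ℤ) ^ 2))
  have key : ∀ w : ZMod 3, wt ((n : ℤ) ^ 2) + w ≠ 0 → Mt h n π p e w 0 0 0 ≠ 0 := by
    intro w hw
    have h3 : Mt h n π p e w 0 0 0 = if h = 2 then wt ((n : ℤ) ^ 2) + w else 1 := rfl
    rw [h3]
    split_ifs with h4
    · exact hw
    · exact one_ne_zero
  obtain ⟨c, hc1, hc2⟩ := hEDET m (Mt h n π p e w0 0) (-Mt h n π p e (-w0) 0) (key w0 h1)
    (by
      rw [Matrix.neg_apply]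
      exact neg_ne_zero.2 (key _ h2))
  refine ⟨w0, c, h1, h2, ?_, ?_⟩
  · refine NZER.vN_zero h n π p e r w0 c ?_ h1
    rw [EMAX.Mt_eq]
    exact hc1
  · refine NZER.vN_zero h n π p e r (-w0) (-c) ?_ h2
    rw [EMAX.Mt_eq]
    intro h0
    apply hc2
    have h5 : (-Mt h n π p e (-w0) 0 -
        Matrix.diagonal (Fin.cons 0 c : Fin (m + 1) → ZMod 3)) =
        -(Mt h n π p e (-w0) 0 -
          Matrix.diagonal (Fin.cons 0 (-c) : Fin (m + 1) → ZMod 3)) := by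
      have h6 : (Fin.cons 0 (-c) : Fin (m + 1) → ZMod 3) =
          -(Fin.cons 0 c : Fin (m + 1) → ZMod 3) := by
        funext i
        refine Fin.cases ?_ (fun i' => ?_) i
        · rw [Pi.neg_apply, Fin.cons_zero, Fin.cons_zero, neg_zero]
        · rw [Pi.neg_apply, Fin.cons_succ, Fin.cons_succ, Pi.neg_apply]
      have h7 : Matrix.diagonal (-(Fin.cons 0 c : Fin (m + 1) → ZMod 3)) =
          -Matrix.diagonal (Fin.cons 0 c : Fin (m + 1) → ZMod 3) := by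
        rw [Matrix.diagonal_neg]
        rfl
      rw [h6, h7]
      abel
    rw [h5, Matrix.det_neg, h0, mul_zero]

/-- the dimension `s` of a good class -/
theorem s_eq (h n : ℕ) {m k : ℕ} (π : Fin m → PP) (p e : Fin m → ℕ) (r : Fin k → ℕ)
    (w0 : ZMod 3) (c : Fin m → ZMod 3) (hNDIM : Stmt_NDIM) (hh : h ≤ 2)
    (hw : wt ((n : ℤ) ^ 2) + w0 ≠ 0) (hv : vN h n π p e r w0 c = 0) :
    sN h n π p e r w0 c = k + if h = 1 then 1 else 0 := by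
  have h1 := hNDIM h n m k π p e r w0 c
  rw [hv, zero_add] at h1
  have h2 : actR h n w0 ↔ h = 2 := by
    constructor
    · rintro (h0 | ⟨-, h0⟩)
      · exact h0
      · exact absurd h0 hw
    · exact Or.inl
  rcases (by omega : h = 0 ∨ h = 1 ∨ h = 2) with h0 | h0 | h0
  · have h3 : ¬ actR h n w0 := fun h4 => by
      have := h2.1 h4
      omega
    rw [if_neg h3, if_pos h0] at h1
    rw [if_neg (by omega)]
    exact h1
  · have h3 : ¬ actR h n w0 := fun h4 => by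
      have := h2.1 h4
      omega
    rw [if_neg h3, if_neg (by omega)] at h1
    rw [if_pos h0]
    exact h1
  · rw [if_pos (h2.2 h0), if_neg (by omega)] at h1
    rw [if_neg (by omega)]
    omega

/-! ### The opposite class -/

theorem z3a : ∀ x : ZMod 3, 2 * x = -x := by decide

theorem inct_one {m : ℕ} {π : Fin m → PP} {w0 : ZMod 3} {c : Fin m → ZMod 3} {q : ℕ}
    (hq : ¬ (3 : ℤ) ∣ (q : ℤ)) (h : InCT 1 π w0 c q) : InCT 2 π (-w0) (-c) q := by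
  obtain ⟨h1, h2⟩ := h
  refine ⟨?_, fun i => ?_⟩
  · rw [pow_one] at h1
    rw [CLT.wt_four hq, h1]
    exact z3a w0
  · have h3 := h2 i
    rw [Nat.cast_one, one_mul] at h3
    rw [h3, Pi.neg_apply, Nat.cast_ofNat]
    exact z3a (c i)

theorem inct_two {m : ℕ} {π : Fin m → PP} {w0 : ZMod 3} {c : Fin m → ZMod 3} {q : ℕ}
    (hq : ¬ (3 : ℤ) ∣ (q : ℤ)) (h : InCT 2 π w0 c q) : InCT 1 π (-w0) (-c) q := by
  obtain ⟨h1, h2⟩ := h
  refine ⟨?_, fun i => ?_⟩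
  · rw [CLT.wt_four hq] at h1
    rw [pow_one]
    exact (CLT.two_iff _ _).1 h1
  · have h3 := h2 i
    rw [Nat.cast_ofNat] at h3
    rw [Nat.cast_one, one_mul, Pi.neg_apply]
    exact (CLT.two_iff _ _).1 h3

/-! ### Densities -/

theorem comb (S W W' : ℕ → Set ℕ) (G : Set ℕ) (P D : ℝ) (M : ℕ)
    (hG : ∀ E q : ℕ, (E = 1 ∨ E = 2) → q.Prime → M < q → q ∈ S E → q ∉ W E → q ∉ W' E → q ∈ G)
    (hD : ∃ K : ℝ, ∀ σ : ℝ, 1 < σ → σ ≤ 2 →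
      D * Real.log (1 / (σ - 1)) - K ≤ sm (S 1) σ + sm (S 2) σ)
    (hP : ∃ K : ℝ, ∀ σ : ℝ, 1 < σ → σ ≤ 2 →
      sm (W 1) σ + sm (W 2) σ ≤ P * Real.log (1 / (σ - 1)) + K)
    (hP' : ∃ K : ℝ, ∀ σ : ℝ, 1 < σ → σ ≤ 2 →
      sm (W' 1) σ + sm (W' 2) σ ≤ P * Real.log (1 / (σ - 1)) + K) :
    ∃ K : ℝ, ∀ σ : ℝ, 1 < σ → σ ≤ 2 →
      (D - 2 * P) / 2 * Real.log (1 / (σ - 1)) - K ≤ sm G σ := by
  obtain ⟨K0, hK0⟩ := hD
  obtain ⟨K1, hK1⟩ := hP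
  obtain ⟨K2, hK2⟩ := hP'
  refine ⟨(K0 + K1 + K2 + 2 * (2 * ((Finset.range (M + 1)).card : ℝ))) / 2, fun σ h1 h2 => ?_⟩
  have e0 := hK0 σ h1 h2
  have e1 := hK1 σ h1 h2
  have e2 := hK2 σ h1 h2
  have e3 : ∀ E : ℕ, (E = 1 ∨ E = 2) → sm (S E) σ ≤
      sm (W E) σ + sm (W' E) σ + sm G σ + 2 * ((Finset.range (M + 1)).card : ℝ) := by
    intro E hE
    have i1 := CL.sm_le_add (S E) (W E ∪ (W' E ∪ G)) M (fun q hq hqM hqS => by
      by_cases g1 : q ∈ W E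
      · exact Or.inl g1
      · by_cases g2 : q ∈ W' E
        · exact Or.inr (Or.inl g2)
        · exact Or.inr (Or.inr (hG E q hE hq hqM hqS g1 g2))) h1
    have i2 := BD.sm_union_inter (W E) (W' E ∪ G) h1
    have i3 := BD.sm_union_inter (W' E) G h1
    have i4 := DL.sm_nonneg (W E ∩ (W' E ∪ G)) σ
    have i5 := DL.sm_nonneg (W' E ∩ G) σ
    linarith
  have e4 := e3 1 (Or.inl rfl)
  have e5 := e3 2 (Or.inr rfl)
  have e6 : (D - 2 * P) / 2 * Real.log (1 / (σ - 1)) =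
      (D * Real.log (1 / (σ - 1)) - 2 * (P * Real.log (1 / (σ - 1)))) / 2 := by ring
  rw [e6]
  linarith

/-- what is known about one class -/
def Good (h n : ℕ) {m : ℕ} (π : Fin m → PP) (w0 : ZMod 3) (c : Fin m → ZMod 3) (a : ℕ) : Prop :=
  (∃ M : ℕ, ∀ E q : ℕ, (E = 1 ∨ E = 2) → q.Prime → M < q → q % 3 = a → InCT E π w0 c q →
    ∃ d, CubeRank.GenBy (BB h n E q) d) ∧
  ∃ K : ℝ, ∀ σ : ℝ, 1 < σ → σ ≤ 2 →
    sm (WR h n π w0 c a 1 1) σ + sm (WR h n π w0 c a 2 1) σ ≤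
      3 / 8 / 3 ^ (m + 1) * Real.log (1 / (σ - 1)) + K

theorem no_of {h n E q : ℕ} (hn : n ≠ 0) (hq : q.Prime)
    (hd : ∃ d, CubeRank.GenBy (BB h n E q) d) (hr : ¬ 1 ≤ CubeRank.rr (BB h n E q)) :
    ¬ ∃ X Y : ℚ, X ^ 3 + Y ^ 3 = ((3 ^ h * n : ℕ) : ℚ) * (q : ℚ) ^ E := by
  obtain ⟨d, hd⟩ := hd
  have h1 := CubeRank.gen_rr hd
  have h2 : CubeRank.rr (BB h n E q) = 0 := by omega
  rw [h2] at h1
  have h3 : BB h n E q ≠ 0 := by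
    unfold BB
    refine mul_ne_zero (mul_ne_zero (pow_ne_zero _ (by norm_num)) ?_) (pow_ne_zero _ ?_)
    · exact_mod_cast hn
    · exact_mod_cast hq.ne_zero
  have h4 := DOM.no_sol h3 h1
  have h5 : ((BB h n E q : ℤ) : ℚ) = ((3 ^ h * n : ℕ) : ℚ) * (q : ℚ) ^ E := by
    unfold BB
    push_cast
    rfl
  rwa [h5] at h4

theorem class_dens (hCLT : Stmt_CLT) {h n m k : ℕ} {π : Fin m → PP} {p e : Fin m → ℕ}
    {r f : Fin k → ℕ} (hN : NF n π p e r f) {w0 : ZMod 3} {c : Fin m → ZMod 3} {a : ℕ}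
    (ha : a = 1 ∨ a = 2) (hu : Good h n π w0 c a) (hu' : Good h n π (-w0) (-c) a) :
    RI.DensityGE {q : ℕ | (¬ ∃ X Y : ℚ, X ^ 3 + Y ^ 3 = ((3 ^ h * n : ℕ) : ℚ) * (q : ℚ) ^ 1) ∧
      ¬ ∃ X Y : ℚ, X ^ 3 + Y ^ 3 = ((3 ^ h * n : ℕ) : ℚ) * (q : ℚ) ^ 2} (1 / (24 * 3 ^ m)) := by
  obtain ⟨⟨M, hM⟩, hP⟩ := hu
  obtain ⟨⟨M', hM'⟩, ⟨K', hK'⟩⟩ := hu'
  obtain ⟨K0, hK0⟩ := hCLT m π p hN.pp hN.p1 hN.pπ hN.pinj w0 c a ha
  have hn : n ≠ 0 := CBE.n_ne hN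
  obtain ⟨K, hK⟩ := comb (fun E => {q : ℕ | q % 3 = a ∧ InCT E π w0 c q})
    (fun E => WR h n π w0 c a E 1) (fun E => WR h n π (-w0) (-c) a (3 - E) 1)
    {q : ℕ | (¬ ∃ X Y : ℚ, X ^ 3 + Y ^ 3 = ((3 ^ h * n : ℕ) : ℚ) * (q : ℚ) ^ 1) ∧
      ¬ ∃ X Y : ℚ, X ^ 3 + Y ^ 3 = ((3 ^ h * n : ℕ) : ℚ) * (q : ℚ) ^ 2}
    (3 / 8 / 3 ^ (m + 1)) (1 / 3 ^ (m + 1)) (M + M') (by
      rintro E q hE hq hqM ⟨hqa, hqc⟩ hW hW'
      have h3 : ¬ (3 : ℤ) ∣ (q : ℤ) := by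
        intro h0
        have : q % 3 = 0 := by omega
        omega
      rcases hE with rfl | rfl
      · have hc2 := inct_one h3 hqc
        exact ⟨no_of hn hq (hM 1 q (Or.inl rfl) hq (by omega) hqa hqc)
            fun hr => hW ⟨hqa, hqc, hr⟩,
          no_of hn hq (hM' 2 q (Or.inr rfl) hq (by omega) hqa hc2)
            fun hr => hW' ⟨hqa, hc2, hr⟩⟩
      · have hc1 := inct_two h3 hqc
        exact ⟨no_of hn hq (hM' 1 q (Or.inl rfl) hq (by omega) hqa hc1)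
            fun hr => hW' ⟨hqa, hc1, hr⟩,
          no_of hn hq (hM 2 q (Or.inr rfl) hq (by omega) hqa hqc)
            fun hr => hW ⟨hqa, hqc, hr⟩⟩)
    ⟨K0, fun σ h1 h2 => (hK0 σ h1 h2).1⟩ hP
    ⟨K', fun σ h1 h2 => by
      have := hK' σ h1 h2
      show sm (WR h n π (-w0) (-c) a 2 1) σ + sm (WR h n π (-w0) (-c) a 1 1) σ ≤ _
      linarith⟩
  refine ⟨K, fun σ h1 h2 => ?_⟩
  have h3 := hK σ h1 h2
  have h4 : (1 / 3 ^ (m + 1) - 2 * (3 / 8 / 3 ^ (m + 1)) : ℝ) / 2 = 1 / (24 * 3 ^ m) := by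
    rw [pow_succ]
    field_simp
    norm_num
  rw [h4] at h3
  exact h3

/-- the theorem for `3^h n` -/
theorem nf_dens {h n m k : ℕ} {π : Fin m → PP} {p e : Fin m → ℕ}
    {r f : Fin k → ℕ} (hN : NF n π p e r f) (hh : h ≤ 2) :
    RI.DensityGE {q : ℕ | (¬ ∃ X Y : ℚ, X ^ 3 + Y ^ 3 = ((3 ^ h * n : ℕ) : ℚ) * (q : ℚ) ^ 1) ∧
      ¬ ∃ X Y : ℚ, X ^ 3 + Y ^ 3 = ((3 ^ h * n : ℕ) : ℚ) * (q : ℚ) ^ 2} (1 / (24 * 3 ^ m)) := by
  obtain ⟨w0, c, h1, h2, hv1, hv2⟩ := exists_class PT.Final.fEDET h n π p e r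
  have hs1 := s_eq h n π p e r w0 c PTN.Final.fNDIM hh h1 hv1
  have hs2 := s_eq h n π p e r (-w0) (-c) PTN.Final.fNDIM hh h2 hv2
  obtain ⟨-, -, l3, -, l5, -, -, -⟩ := PTN.Final.fLAW
  have hpos : (0 : ℝ) < 3 ^ (m + 1) := by positivity
  rcases Nat.even_or_odd (k + if h = 1 then 1 else 0) with hE | hO
  · have key : ∀ (w : ZMod 3) (c' : Fin m → ZMod 3), vN h n π p e r w c' = 0 →
        sN h n π p e r w c' = (k + if h = 1 then 1 else 0) → Good h n π w c' 2 := by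
      intro w c' hv hs
      obtain ⟨⟨M, hM⟩, hT⟩ := PTN.Final.fCLN h n m k π p e r f w c' hN hh
      obtain ⟨K, hK⟩ := hT 1
      refine ⟨⟨M, fun E q hE hq hqM hq3 hqc => ⟨_, hM E q hE hq hqM hq3 hqc⟩⟩, K,
        fun σ g1 g2 => ?_⟩
      have h3 := hK σ g1 g2
      rw [hv, hs] at h3
      refine h3.trans ?_
      have h4 := l3 _ hE
      have h5 : 0 ≤ Real.log (1 / (σ - 1)) := FIN.log_nn g1 g2
      have h6 : LI (k + if h = 1 then 1 else 0) (1 - 0) / 3 ^ (m + 1) ≤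
          3 / 8 / 3 ^ (m + 1) := by
        gcongr
      have h7 := mul_le_mul_of_nonneg_right h6 h5
      linarith
    exact class_dens PTN.Final.fCLT hN (Or.inr rfl) (key _ _ hv1 hs1) (key _ _ hv2 hs2)
  · have key : ∀ (w : ZMod 3) (c' : Fin m → ZMod 3), vN h n π p e r w c' = 0 →
        sN h n π p e r w c' = (k + if h = 1 then 1 else 0) → Good h n π w c' 1 := by
      intro w c' hv hs
      obtain ⟨⟨M, hM⟩, hT⟩ := PTN.Final.fCLU h n m k π p e r f w c' hN hh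
      obtain ⟨K, hK⟩ := hT 1
      refine ⟨⟨M, fun E q hE hq hqM hq3 hqc => ⟨_, hM E q hE hq hqM hq3 hqc⟩⟩, K,
        fun σ g1 g2 => ?_⟩
      have h3 := hK σ g1 g2
      rw [hv, hs] at h3
      refine h3.trans ?_
      have h4 := l5 _ hO
      have h5 : 0 ≤ Real.log (1 / (σ - 1)) := FIN.log_nn g1 g2
      have h6 : LS (k + if h = 1 then 1 else 0) 0 1 / 3 ^ (m + 1) ≤
          3 / 8 / 3 ^ (m + 1) := by
        gcongr
      have h7 := mul_le_mul_of_nonneg_right h6 h5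
      linarith
    exact class_dens PTN.Final.fCLT hN (Or.inl rfl) (key _ _ hv1 hs1) (key _ _ hv2 hs2)

/-! ### All `n` -/

theorem sum_cubes_iff {n t : ℕ} (ht : 0 < t) (x : ℚ) :
    (∃ X Y : ℚ, X ^ 3 + Y ^ 3 = (n : ℚ) * x) ↔
      ∃ X Y : ℚ, X ^ 3 + Y ^ 3 = ((n * t ^ 3 : ℕ) : ℚ) * x := by
  have ht' : (t : ℚ) ≠ 0 := by exact_mod_cast ht.ne'
  constructor
  · rintro ⟨X, Y, h⟩
    refine ⟨X * t, Y * t, ?_⟩
    push_cast
    linear_combination (t : ℚ) ^ 3 * h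
  · rintro ⟨X, Y, h⟩
    refine ⟨X / t, Y / t, ?_⟩
    push_cast at h
    field_simp
    linear_combination h

/-- all exponents -/
theorem all_exp {n : ℚ} {q : ℕ} (hq : q.Prime) (h1 : ¬ ∃ X Y : ℚ, X ^ 3 + Y ^ 3 = n * (q : ℚ) ^ 1)
    (h2 : ¬ ∃ X Y : ℚ, X ^ 3 + Y ^ 3 = n * (q : ℚ) ^ 2) (j : ℕ) (hj : ¬ 3 ∣ j) :
    ¬ ∃ X Y : ℚ, X ^ 3 + Y ^ 3 = n * (q : ℚ) ^ j := by
  have hq0 : (q : ℚ) ≠ 0 := by exact_mod_cast hq.ne_zero
  have key : ∀ i : ℕ, j = 3 * (j / 3) + i → (∃ X Y : ℚ, X ^ 3 + Y ^ 3 = n * (q : ℚ) ^ j) →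
      ∃ X Y : ℚ, X ^ 3 + Y ^ 3 = n * (q : ℚ) ^ i := by
    rintro i hi ⟨X, Y, h⟩
    refine ⟨X / (q : ℚ) ^ (j / 3), Y / (q : ℚ) ^ (j / 3), ?_⟩
    rw [hi, pow_add, pow_mul'] at h
    rw [div_pow, div_pow, ← add_div, h]
    field_simp
  intro h
  rcases (by omega : j = 3 * (j / 3) + 1 ∨ j = 3 * (j / 3) + 2) with h3 | h3
  · exact h1 (key 1 h3 h)
  · exact h2 (key 2 h3 h)

/-- For every `n ≥ 1`, for a positive proportion of the primes `q`, none of the numbers `n q^j`,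
`j` not divisible by `3`, is a sum of two rational cubes. -/
theorem both (N : ℕ) (hN : 0 < N) :
    ∃ K : ℝ, ∀ s : ℝ, 1 < s → s ≤ 2 →
      1 / (24 * 3 ^ Nat.card {p : ℕ // p.Prime ∧ p % 3 = 1 ∧ ¬ 3 ∣ N.factorization p}) *
        Real.log (1 / (s - 1)) - K ≤
      ∑' q : {q : ℕ // q.Prime ∧ ∀ j : ℕ, ¬ 3 ∣ j →
        ¬ ∃ X Y : ℚ, X ^ 3 + Y ^ 3 = (N : ℚ) * (q : ℚ) ^ j}, (q : ℝ) ^ (-s) := by
  set v := N.factorization 3 with hv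
  have hN0 : 3 ^ v * (N / 3 ^ v) = N := Nat.ordProj_mul_ordCompl_eq_self N 3
  have h3 : ¬ 3 ∣ N / 3 ^ v := Nat.not_dvd_ordCompl Nat.prime_three hN.ne'
  have hpos : 0 < N / 3 ^ v := Nat.ordCompl_pos 3 hN.ne'
  have hm := MAI3.card_eq N 1 (by norm_num)
  rw [← hv] at hm
  obtain ⟨n, t, π, p, e, r, f, hn, ht, hNn, hNF, -⟩ := PT.Final.fENF (N / 3 ^ v) hpos h3
  rw [← hm]
  have hvd := Nat.div_add_mod v 3
  have hT : 0 < t * 3 ^ (v / 3) := by positivity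
  have hN1 : N = (3 ^ (v % 3) * n) * (t * 3 ^ (v / 3)) ^ 3 := by
    rw [← hN0, hNn]
    have : 3 ^ v = 3 ^ (v % 3) * (3 ^ (v / 3)) ^ 3 := by
      rw [← pow_mul, ← pow_add]
      congr 1
      omega
    rw [this]
    ring
  obtain ⟨K, hK⟩ := RI.PDGE_thm _ {q : ℕ | ∀ j : ℕ, ¬ 3 ∣ j →
    ¬ ∃ X Y : ℚ, X ^ 3 + Y ^ 3 = (N : ℚ) * (q : ℚ) ^ j} ∅ _ (nf_dens (h := v % 3) hNF (by omega))
    (fun q hq hp _ j hj => by
      obtain ⟨g1, g2⟩ := hq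
      rw [sum_cubes_iff hT ((q : ℚ) ^ 1), ← hN1] at g1
      rw [sum_cubes_iff hT ((q : ℚ) ^ 2), ← hN1] at g2
      exact all_exp hp g1 g2 j hj)
  exact ⟨K, fun s h1 h2 => hK s h1 h2⟩

end Pool.Agent.PTB
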