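import Pool.Agent.PTBM.Both
import Pool.Agent.PTBM.DecLaw

/-!
# Both twists `n q` and `n q²` without rational points, for the primes `q` of a primitive recursive
set of positive density
-/

set_option autoImplicit false

open NumberField IsDedekindDomain Finset
open scoped nonZeroDivisors Pointwise

namespace Pool.Agent.PTB

open Pool.Agent.Lib_helper18 Pool.Agent.Lib_helper18.Eis Pool.Agent.Lib_helper84.Cub
open Pool.Agent.PT Pool.Agent.PTE Pool.Agent.PT3 Pool.Agent.PTL Pool.Agent.PTN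
open BDENS PRM

/-- what is known about one class, with primitive recursive sets -/
def GoodD (h n : ℕ) {m : ℕ} (π : Fin m → PP) (w0 : ZMod 3) (c : Fin m → ZMod 3) (a : ℕ) : Prop :=
  (∃ M : ℕ, ∀ E q : ℕ, (E = 1 ∨ E = 2) → q.Prime → M < q → q % 3 = a → InCT E π w0 c q →
    ∃ d, CubeRank.GenBy (BB h n E q) d) ∧
  ∃ (M : ℕ) (W : ℕ → Set ℕ), (∀ E, DecP (W E)) ∧
    (∀ E q : ℕ, (E = 1 ∨ E = 2) → q.Prime → M < q → q ∈ WR h n π w0 c a E 1 → q ∈ W E) ∧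
    ∃ K : ℝ, ∀ σ : ℝ, 1 < σ → σ ≤ 2 →
      sm (W 1) σ + sm (W 2) σ ≤ 3 / 8 / 3 ^ (m + 1) * Real.log (1 / (σ - 1)) + K

theorem mk_good {h n : ℕ} {m : ℕ} {π : Fin m → PP} {w0 : ZMod 3} {c : Fin m → ZMod 3} {a : ℕ}
    (h1 : ∃ M : ℕ, ∀ E q : ℕ, (E = 1 ∨ E = 2) → q.Prime → M < q → q % 3 = a → InCT E π w0 c q →
      ∃ d, CubeRank.GenBy (BB h n E q) d) {x : ℝ} (hx : x ≤ 3 / 8)
    (h2 : ∃ (M : ℕ) (W1 W2 : Set ℕ), DecP W1 ∧ DecP W2 ∧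
        (∀ q : ℕ, q.Prime → M < q → q ∈ WR h n π w0 c a 1 1 → q ∈ W1) ∧
        (∀ q : ℕ, q.Prime → M < q → q ∈ WR h n π w0 c a 2 1 → q ∈ W2) ∧
        ∃ K : ℝ, ∀ σ : ℝ, 1 < σ → σ ≤ 2 →
          BDENS.sm W1 σ + BDENS.sm W2 σ ≤ x / 3 ^ (m + 1) * Real.log (1 / (σ - 1)) + K) :
    GoodD h n π w0 c a := by
  obtain ⟨M, W1, W2, d1, d2, i1, i2, K, hK⟩ := h2
  refine ⟨h1, M, fun E => if E = 1 then W1 else W2, fun E => ?_, ?_, K, fun σ g1 g2 => ?_⟩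
  · by_cases hE : E = 1
    · simp only [hE, if_true]
      exact d1
    · simp only [hE, if_false]
      exact d2
  · rintro E q (rfl | rfl) hq hM hW
    · exact i1 q hq hM hW
    · exact i2 q hq hM hW
  · have h3 := hK σ g1 g2
    have h5 : 0 ≤ Real.log (1 / (σ - 1)) := FIN.log_nn g1 g2
    have h6 : x / 3 ^ (m + 1) ≤ 3 / 8 / 3 ^ (m + 1) := by gcongr
    have h7 := mul_le_mul_of_nonneg_right h6 h5
    simp only [if_true, OfNat.ofNat_ne_one, if_false]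
    linarith

/-- the property of the set of primes -/
def NoTw (A : ℕ) (q : ℕ) : Prop :=
  (¬ ∃ X Y : ℚ, X ^ 3 + Y ^ 3 = (A : ℚ) * (q : ℚ) ^ 1) ∧
    ¬ ∃ X Y : ℚ, X ^ 3 + Y ^ 3 = (A : ℚ) * (q : ℚ) ^ 2

theorem class_dens_dec (hCLT : Stmt_CLT) {h n m k : ℕ} {π : Fin m → PP} {p e : Fin m → ℕ}
    {r f : Fin k → ℕ} (hN : NF n π p e r f) {w0 : ZMod 3} {c : Fin m → ZMod 3} {a : ℕ}
    (ha : a = 1 ∨ a = 2) (hu : GoodD h n π w0 c a) (hu' : GoodD h n π (-w0) (-c) a) :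
    ∃ D : Set ℕ, PrimrecPred (fun q => q ∈ D) ∧ (∀ q ∈ D, q.Prime ∧ NoTw (3 ^ h * n) q) ∧
      RI.DensityGE D (1 / (24 * 3 ^ m)) := by
  obtain ⟨⟨M, hM⟩, M2, W, hWd, hWi, hP⟩ := hu
  obtain ⟨⟨M', hM'⟩, M2', W', hWd', hWi', ⟨K', hK'⟩⟩ := hu'
  obtain ⟨K0, hK0⟩ := hCLT m π p hN.pp hN.p1 hN.pπ hN.pinj w0 c a ha
  have hn : n ≠ 0 := CBE.n_ne hN
  obtain ⟨L, hL⟩ : ∃ L, L = M + M' + M2 + M2' := ⟨_, rfl⟩
  -- the sets
  obtain ⟨D, hDdef⟩ : ∃ D : ℕ → Set ℕ, ∀ E, D E = (({q : ℕ | L < q} ∩ {q : ℕ | q % 3 = a}) ∩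
      {q : ℕ | InCT E π w0 c q}) ∩ ((W E)ᶜ ∩ (W' (3 - E))ᶜ) := ⟨_, fun _ => rfl⟩
  have hDd : ∀ E, DecP (D E) := by
    intro E
    rw [hDdef]
    exact (((DecP.of (Primrec.nat_lt.comp (Primrec.const L) Primrec.id)).inter
      (mod_prim a)).inter (inct_prim E π w0 c p hN.pp hN.pπ)).inter
      ((hWd E).compl.inter (hWd' (3 - E)).compl)
  have hDno : ∀ E q : ℕ, (E = 1 ∨ E = 2) → q.Prime → q ∈ D E → NoTw (3 ^ h * n) q := by
    intro E q hE hq hqD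
    rw [hDdef] at hqD
    obtain ⟨⟨⟨hqL, hqa⟩, hqc⟩, hW, hW'⟩ := hqD
    have hqL' : L < q := hqL
    have hqa' : q % 3 = a := hqa
    have h3 : ¬ (3 : ℤ) ∣ (q : ℤ) := by
      intro h0
      have : q % 3 = 0 := by omega
      omega
    rcases hE with rfl | rfl
    · have hc2 := inct_one h3 hqc
      exact ⟨no_of hn hq (hM 1 q (Or.inl rfl) hq (by omega) hqa hqc)
          fun hr => hW (hWi 1 q (Or.inl rfl) hq (by omega) ⟨hqa, hqc, hr⟩),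
        no_of hn hq (hM' 2 q (Or.inr rfl) hq (by omega) hqa hc2)
          fun hr => hW' (hWi' 2 q (Or.inr rfl) hq (by omega) ⟨hqa, hc2, hr⟩)⟩
    · have hc1 := inct_two h3 hqc
      exact ⟨no_of hn hq (hM' 1 q (Or.inl rfl) hq (by omega) hqa hc1)
          fun hr => hW' (hWi' 1 q (Or.inl rfl) hq (by omega) ⟨hqa, hc1, hr⟩),
        no_of hn hq (hM 2 q (Or.inr rfl) hq (by omega) hqa hqc)
          fun hr => hW (hWi 2 q (Or.inr rfl) hq (by omega) ⟨hqa, hqc, hr⟩)⟩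
  have hDp := ((hDd 1).union (hDd 2)).prim
  refine ⟨{q : ℕ | q.Prime ∧ q ∈ D 1 ∪ D 2}, hDp, ?_, ?_⟩
  · rintro q ⟨hq, hq1 | hq2⟩
    · exact ⟨hq, hDno 1 q (Or.inl rfl) hq hq1⟩
    · exact ⟨hq, hDno 2 q (Or.inr rfl) hq hq2⟩
  obtain ⟨K, hK⟩ := comb (fun E => {q : ℕ | q % 3 = a ∧ InCT E π w0 c q})
    (fun E => W E) (fun E => W' (3 - E))
    {q : ℕ | q.Prime ∧ q ∈ D 1 ∪ D 2}
    (3 / 8 / 3 ^ (m + 1)) (1 / 3 ^ (m + 1)) L (by
      rintro E q hE hq hqL ⟨hqa, hqc⟩ hW hW'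
      have h4 : q ∈ D E := by
        rw [hDdef]
        exact ⟨⟨⟨hqL, hqa⟩, hqc⟩, hW, hW'⟩
      rcases hE with rfl | rfl
      · exact ⟨hq, Or.inl h4⟩
      · exact ⟨hq, Or.inr h4⟩)
    ⟨K0, fun σ h1 h2 => (hK0 σ h1 h2).1⟩ hP
    ⟨K', fun σ h1 h2 => by
      have := hK' σ h1 h2
      show sm (W' 2) σ + sm (W' 1) σ ≤ _
      linarith⟩
  refine ⟨K, fun σ h1 h2 => ?_⟩
  have h3 := hK σ h1 h2
  have h4 : (1 / 3 ^ (m + 1) - 2 * (3 / 8 / 3 ^ (m + 1)) : ℝ) / 2 = 1 / (24 * 3 ^ m) := by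
    rw [pow_succ]
    field_simp
    norm_num
  rw [h4] at h3
  exact h3

open PT.Final PT.FinalB PTE.Final PT3.Final PTN.Final in
/-- the theorem for `3^h n` -/
theorem nf_dens_dec {h n m k : ℕ} {π : Fin m → PP} {p e : Fin m → ℕ}
    {r f : Fin k → ℕ} (hN : NF n π p e r f) (hh : h ≤ 2) :
    ∃ D : Set ℕ, PrimrecPred (fun q => q ∈ D) ∧ (∀ q ∈ D, q.Prime ∧ NoTw (3 ^ h * n) q) ∧
      RI.DensityGE D (1 / (24 * 3 ^ m)) := by
  obtain ⟨w0, c, h1, h2, hv1, hv2⟩ := exists_class PT.Final.fEDET h n π p e r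
  have hs1 := s_eq h n π p e r w0 c PTN.Final.fNDIM hh h1 hv1
  have hs2 := s_eq h n π p e r (-w0) (-c) PTN.Final.fNDIM hh h2 hv2
  obtain ⟨-, -, l3, -, l5, -, -, -⟩ := PTN.Final.fLAW
  rcases Nat.even_or_odd (k + if h = 1 then 1 else 0) with hE | hO
  · have key : ∀ (w : ZMod 3) (c' : Fin m → ZMod 3), vN h n π p e r w c' = 0 →
        sN h n π p e r w c' = (k + if h = 1 then 1 else 0) → GoodD h n π w c' 2 := by
      intro w c' hv hs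
      obtain ⟨⟨M, hM⟩, -⟩ := PTN.Final.fCLN h n m k π p e r f w c' hN hh
      have h3 := CLN_dec fNBAS fESYT fDCOT fCLSC fNBKN fBDG fTENT fNADT h n m k π p e r f w c'
        hN hh 1
      rw [hv, hs] at h3
      exact mk_good ⟨M, fun E q hE hq hqM hq3 hqc => ⟨_, hM E q hE hq hqM hq3 hqc⟩⟩
        (l3 _ hE) h3
    exact class_dens_dec PTN.Final.fCLT hN (Or.inr rfl) (key _ _ hv1 hs1) (key _ _ hv2 hs2)
  · have key : ∀ (w : ZMod 3) (c' : Fin m → ZMod 3), vN h n π p e r w c' = 0 →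
        sN h n π p e r w c' = (k + if h = 1 then 1 else 0) → GoodD h n π w c' 1 := by
      intro w c' hv hs
      obtain ⟨⟨M, hM⟩, -⟩ := PTN.Final.fCLU h n m k π p e r f w c' hN hh
      have h3 := CLU_dec fNHPT (DLU_dec fESYT fDCOU fCLSC fCLSCS fNBKU fBDU fTENT fNADU fSPLT) fDLL
        fCLT fSMT fSPLT h n m k π p e r f w c' hN hh 1 (by omega)
      rw [hv, hs] at h3
      exact mk_good ⟨M, fun E q hE hq hqM hq3 hqc => ⟨_, hM E q hE hq hqM hq3 hqc⟩⟩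
        (l5 _ hO) h3
    exact class_dens_dec PTN.Final.fCLT hN (Or.inl rfl) (key _ _ hv1 hs1) (key _ _ hv2 hs2)

/-- For every `n ≥ 1` there is a primitive recursive set `D` of primes of positive lower density
such that none of the numbers `n q^j`, `q ∈ D`, `j` not divisible by `3`, is a sum of two rational
cubes. -/
theorem both_dec (N : ℕ) (hN : 0 < N) :
    ∃ D : Set ℕ, PrimrecPred (fun q => q ∈ D) ∧
      (∀ q ∈ D, q.Prime ∧ ∀ j : ℕ, ¬ 3 ∣ j →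
        ¬ ∃ X Y : ℚ, X ^ 3 + Y ^ 3 = (N : ℚ) * (q : ℚ) ^ j) ∧
      ∃ K : ℝ, ∀ s : ℝ, 1 < s → s ≤ 2 →
        1 / (24 * 3 ^ Nat.card {p : ℕ // p.Prime ∧ p % 3 = 1 ∧ ¬ 3 ∣ N.factorization p}) *
          Real.log (1 / (s - 1)) - K ≤ ∑' q : D, (q : ℝ) ^ (-s) := by
  set v := N.factorization 3 with hv
  have hN0 : 3 ^ v * (N / 3 ^ v) = N := Nat.ordProj_mul_ordCompl_eq_self N 3
  have h3 : ¬ 3 ∣ N / 3 ^ v := Nat.not_dvd_ordCompl Nat.prime_three hN.ne'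
  have hpos : 0 < N / 3 ^ v := Nat.ordCompl_pos 3 hN.ne'
  have hm := MAI3.card_eq N 1 (by norm_num)
  rw [← hv] at hm
  obtain ⟨n, t, π, p, e, r, f, hn, ht, hNn, hNF, -⟩ := PT.Final.fENF (N / 3 ^ v) hpos h3
  rw [← hm]
  have hvd := Nat.div_add_mod v 3
  have hT : 0 < t * 3 ^ (v / 3) := by positivity
  have hN1 : N = (3 ^ (v % 3) * n) * (t * 3 ^ (v / 3)) ^ 3 := by
    rw [← hN0, hNn]
    have : 3 ^ v = 3 ^ (v % 3) * (3 ^ (v / 3)) ^ 3 := by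
      rw [← pow_mul, ← pow_add]
      congr 1
      omega
    rw [this]
    ring
  obtain ⟨D, hD1, hD2, K, hK⟩ := nf_dens_dec (h := v % 3) hNF (by omega)
  refine ⟨D, hD1, fun q hq => ?_, K, fun s h1 h2 => ?_⟩
  · obtain ⟨hp, g1, g2⟩ := hD2 q hq
    refine ⟨hp, fun j hj => ?_⟩
    rw [sum_cubes_iff hT ((q : ℚ) ^ 1), ← hN1] at g1
    rw [sum_cubes_iff hT ((q : ℚ) ^ 2), ← hN1] at g2
    exact all_exp hp g1 g2 j hj
  · have h4 := hK s h1 h2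
    have h5 : {q : ℕ | q.Prime ∧ q ∈ D} = D := by
      ext q
      exact ⟨fun h => h.2, fun h => ⟨(hD2 q h).1, h⟩⟩
    have h6 : (∑' q : {q : ℕ // q.Prime ∧ q ∈ D}, (q : ℝ) ^ (-s)) = ∑' q : D, (q : ℝ) ^ (-s) := by
      have h7 : (∑' q : {q : ℕ | q.Prime ∧ q ∈ D}, (q : ℝ) ^ (-s)) = ∑' q : D, (q : ℝ) ^ (-s) := by
        rw [h5]
      exact h7
    rw [← h6]
    exact h4

end Pool.Agent.PTB
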