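import Pool.Agent.PTDM.C48

/-!
# Cubic residue symbols are primitive recursive
-/

set_option autoImplicit false

open Finset

namespace Pool.Agent.PTB.PRM

open Pool.Agent.Lib_helper18 Pool.Agent.Lib_helper18.Eis Pool.Agent.PT

instance instPrimcodableZ3 : Primcodable (ZMod 3) := inferInstanceAs (Primcodable (Fin 3))

section

variable {α : Type} [Primcodable α]

/-! ### Predicates -/

theorem pp_const (p : Prop) : PrimrecPred fun _ : α => p := by
  classical
  exact Primrec.primrecPred (Primrec.const _)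

theorem pp_forall {ι : Type} [Finite ι] {P : ι → α → Prop} (h : ∀ i, PrimrecPred (P i)) :
    PrimrecPred fun a => ∀ i, P i a := by
  classical
  have := Fintype.ofFinite ι
  have key : ∀ s : Finset ι, PrimrecPred fun a => ∀ i ∈ s, P i a := by
    intro s
    induction s using Finset.induction_on with
    | empty => exact (pp_const True).of_eq fun a => by simp
    | insert i s _ ih => exact ((h i).and ih).of_eq fun a => by simp
  exact (key Finset.univ).of_eq fun a => by simp

theorem pp_exists {ι : Type} [Finite ι] {P : ι → α → Prop} (h : ∀ i, PrimrecPred (P i)) :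
    PrimrecPred fun a => ∃ i, P i a :=
  (pp_forall fun i => (h i).not).not.of_eq fun a => by simp

theorem pp_imp {p q : α → Prop} (hp : PrimrecPred p) (hq : PrimrecPred q) :
    PrimrecPred fun a => p a → q a :=
  (hp.not.or hq).of_eq fun a => by tauto

theorem pp_forall_lt {f : α → ℕ} {R : α → ℕ → Prop} (hf : Primrec f)
    (hR : PrimrecPred fun p : α × ℕ => R p.1 p.2) : PrimrecPred fun a => ∀ r < f a, R a r := by
  have h1 : PrimrecRel fun (r : ℕ) (a : α) => R a r := PrimrecRel.swap (r := R) hR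
  exact ((PrimrecRel.forall_mem_list h1).comp (Primrec.list_range.comp hf) Primrec.id).of_eq
    fun a => by simp

theorem pp_exists_lt {f : α → ℕ} {R : α → ℕ → Prop} (hf : Primrec f)
    (hR : PrimrecPred fun p : α × ℕ => R p.1 p.2) : PrimrecPred fun a => ∃ r < f a, R a r := by
  have h1 : PrimrecRel fun (r : ℕ) (a : α) => R a r := PrimrecRel.swap (r := R) hR
  exact ((PrimrecRel.exists_mem_list h1).comp (Primrec.list_range.comp hf) Primrec.id).of_eq
    fun a => by simp

theorem pp_eq {β : Type} [Primcodable β] {f : α → β} (hf : Primrec f) (b : β) :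
    PrimrecPred fun a => f a = b :=
  Primrec.eq.comp hf (Primrec.const b)

/-- periodic predicates -/
theorem pp_periodic {p : ℕ → Prop} {F : ℕ} (hF : 0 < F) (h : ∀ q, p q ↔ p (q % F)) :
    PrimrecPred p := by
  classical
  have h1 : PrimrecPred fun q : ℕ => ∃ u : Fin F, q % F = u ∧ p u := by
    refine pp_exists fun u => ?_
    exact (pp_eq (Primrec.nat_mod.comp Primrec.id (Primrec.const F)) (u : ℕ)).and (pp_const _)
  refine h1.of_eq fun q => ?_
  constructor
  · rintro ⟨u, h2, h3⟩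
    rw [h q, h2]
    exact h3
  · intro h2
    exact ⟨⟨q % F, Nat.mod_lt _ hF⟩, rfl, (h q).1 h2⟩

theorem pp_prime : PrimrecPred Nat.Prime := by
  have h1 : PrimrecPred fun q : ℕ => 2 ≤ q ∧ ∀ r < q, (∃ s < q + 1, q = r * s) → r = 1 := by
    refine (Primrec.nat_le.comp (Primrec.const 2) Primrec.id).and
      (pp_forall_lt Primrec.id (pp_imp ?_ (pp_eq Primrec.snd 1)))
    refine pp_exists_lt (Primrec.succ.comp Primrec.fst) ?_
    exact Primrec.eq.comp (Primrec.fst.comp Primrec.fst)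
      (Primrec.nat_mul.comp (Primrec.snd.comp Primrec.fst) Primrec.snd)
  refine h1.of_eq fun q => ?_
  rw [Nat.prime_def_lt]
  refine and_congr_right fun h2 => forall_congr' fun r => forall_congr' fun hr => ?_
  refine imp_congr_left ?_
  constructor
  · rintro ⟨s, -, hs⟩
    exact Dvd.intro s hs.symm
  · rintro ⟨s, hs⟩
    refine ⟨s, ?_, hs⟩
    rcases Nat.eq_zero_or_pos r with h0 | h0
    · subst h0
      omega
    · have := Nat.le_mul_of_pos_left s h0
      omega

/-! ### Integers -/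

/-- integer valued functions which are differences of primitive recursive functions -/
def PI (f : α → ℤ) : Prop :=
  ∃ g h : α → ℕ, Primrec g ∧ Primrec h ∧ ∀ a, f a = (g a : ℤ) - (h a : ℤ)

theorem PI.const (c : ℤ) : PI fun _ : α => c :=
  ⟨fun _ => c.toNat, fun _ => (-c).toNat, Primrec.const _, Primrec.const _, fun _ => by
    show c = (c.toNat : ℤ) - ((-c).toNat : ℤ)
    omega⟩

theorem PI.nat {g : α → ℕ} (hg : Primrec g) : PI fun a => (g a : ℤ) :=
  ⟨g, fun _ => 0, hg, Primrec.const 0, fun a => by simp⟩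

theorem PI.add {f g : α → ℤ} (hf : PI f) (hg : PI g) : PI fun a => f a + g a := by
  obtain ⟨f1, f2, h1, h2, h⟩ := hf
  obtain ⟨g1, g2, k1, k2, k⟩ := hg
  refine ⟨fun a => f1 a + g1 a, fun a => f2 a + g2 a, Primrec.nat_add.comp h1 k1,
    Primrec.nat_add.comp h2 k2, fun a => ?_⟩
  simp only [h, k]
  push_cast
  ring

theorem PI.neg {f : α → ℤ} (hf : PI f) : PI fun a => - f a := by
  obtain ⟨f1, f2, h1, h2, h⟩ := hf
  exact ⟨f2, f1, h2, h1, fun a => by simp only [h]; ring⟩

theorem PI.congr {f g : α → ℤ} (hf : PI f) (h : ∀ a, g a = f a) : PI g := by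
  obtain ⟨f1, f2, h1, h2, h'⟩ := hf
  exact ⟨f1, f2, h1, h2, fun a => by rw [h, h']⟩

theorem PI.sub {f g : α → ℤ} (hf : PI f) (hg : PI g) : PI fun a => f a - g a :=
  (hf.add hg.neg).congr fun a => by ring

theorem PI.mul {f g : α → ℤ} (hf : PI f) (hg : PI g) : PI fun a => f a * g a := by
  obtain ⟨f1, f2, h1, h2, h⟩ := hf
  obtain ⟨g1, g2, k1, k2, k⟩ := hg
  refine ⟨fun a => f1 a * g1 a + f2 a * g2 a, fun a => f1 a * g2 a + f2 a * g1 a,
    Primrec.nat_add.comp (Primrec.nat_mul.comp h1 k1) (Primrec.nat_mul.comp h2 k2),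
    Primrec.nat_add.comp (Primrec.nat_mul.comp h1 k2) (Primrec.nat_mul.comp h2 k1), fun a => ?_⟩
  simp only [h, k]
  push_cast
  ring

theorem PI.dvd {g : α → ℕ} {f : α → ℤ} (hg : Primrec g) (hf : PI f) :
    PrimrecPred fun a => (g a : ℤ) ∣ f a := by
  obtain ⟨f1, f2, h1, h2, h⟩ := hf
  have h3 : PrimrecPred fun a => f2 a % g a = f1 a % g a :=
    Primrec.eq.comp (Primrec.nat_mod.comp h2 hg) (Primrec.nat_mod.comp h1 hg)
  refine h3.of_eq fun a => ?_
  rw [h]
  exact Nat.modEq_iff_dvd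

/-! ### Numbers in `Z[w]` -/

/-- functions with values in `Z[w]` -/
def PE (f : α → Eis) : Prop := (PI fun a => (f a).re) ∧ PI fun a => (f a).im

theorem PE.const (c : Eis) : PE fun _ : α => c := ⟨PI.const _, PI.const _⟩

theorem PE.int {f : α → ℤ} (hf : PI f) : PE fun a => (f a : Eis) := ⟨hf, PI.const 0⟩

theorem PE.add {f g : α → Eis} (hf : PE f) (hg : PE g) : PE fun a => f a + g a :=
  ⟨hf.1.add hg.1, hf.2.add hg.2⟩

theorem PE.sub {f g : α → Eis} (hf : PE f) (hg : PE g) : PE fun a => f a - g a :=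
  ⟨hf.1.sub hg.1, hf.2.sub hg.2⟩

theorem PE.mul {f g : α → Eis} (hf : PE f) (hg : PE g) : PE fun a => f a * g a :=
  ⟨(hf.1.mul hg.1).sub (hf.2.mul hg.2), ((hf.1.mul hg.2).add (hf.2.mul hg.1)).sub (hf.2.mul hg.2)⟩

/-- pairs of differences -/
abbrev S4 : Type := (ℕ × ℕ) × (ℕ × ℕ)

/-- the value -/
def vl (s : S4) : Eis := ⟨(s.1.1 : ℤ) - s.1.2, (s.2.1 : ℤ) - s.2.2⟩

theorem PE.exists {f : α → Eis} (hf : PE f) : ∃ g : α → S4, Primrec g ∧ ∀ a, f a = vl (g a) := by
  obtain ⟨⟨f1, f2, h1, h2, h⟩, ⟨g1, g2, k1, k2, k⟩⟩ := hf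
  refine ⟨fun a => ((f1 a, f2 a), (g1 a, g2 a)), (h1.pair h2).pair (k1.pair k2), fun a => ?_⟩
  ext
  · exact h a
  · exact k a

theorem pe_vl {g : α → S4} (hg : Primrec g) : PE fun a => vl (g a) := by
  constructor
  · exact (PI.nat (Primrec.fst.comp (Primrec.fst.comp hg))).sub
      (PI.nat (Primrec.snd.comp (Primrec.fst.comp hg)))
  · exact (PI.nat (Primrec.fst.comp (Primrec.snd.comp hg))).sub
      (PI.nat (Primrec.snd.comp (Primrec.snd.comp hg)))

theorem exists_mul : ∃ μ : S4 × S4 → S4, Primrec μ ∧ ∀ p, vl (μ p) = vl p.1 * vl p.2 := by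
  obtain ⟨μ, h1, h2⟩ := ((pe_vl (α := S4 × S4) Primrec.fst).mul (pe_vl Primrec.snd)).exists
  exact ⟨μ, h1, fun p => (h2 p).symm⟩

theorem PE.pow {f : α → Eis} (hf : PE f) {k : α → ℕ} (hk : Primrec k) :
    PE fun a => f a ^ k a := by
  obtain ⟨g, hg, hfg⟩ := hf.exists
  obtain ⟨μ, hμ, hμ2⟩ := exists_mul
  have h1 : Primrec fun a => (fun s : S4 => μ (s, g a))^[k a] ((1, 0), (0, 0)) :=
    Primrec.nat_iterate hk (Primrec.const _)
      (hμ.comp (Primrec.snd.pair (hg.comp Primrec.fst))).to₂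
  have h2 : ∀ a (n : ℕ), vl ((fun s : S4 => μ (s, g a))^[n] ((1, 0), (0, 0))) = f a ^ n := by
    intro a n
    induction n with
    | zero =>
      rw [Function.iterate_zero, pow_zero]
      rfl
    | succ n ih =>
      rw [Function.iterate_succ_apply', hμ2, ih, ← hfg, pow_succ]
  have h3 := pe_vl h1
  simp only [h2] at h3
  exact h3

theorem PE.dvd {g : α → ℕ} {f : α → Eis} (hg : Primrec g) (hf : PE f) :
    PrimrecPred fun a => (g a : Eis) ∣ f a :=
  ((PI.dvd hg hf.1).and (PI.dvd hg hf.2)).of_eq fun a => natCast_dvd_iff.symm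

/-- the cubic residue symbol with a cofactor -/
noncomputable def esym (θ : Eis) (q k : ℕ) (x : Eis) : ZMod 3 :=
  open Classical in
  if (q : Eis) ∣ θ * (x ^ k - 1) then 0 else if (q : Eis) ∣ θ * (x ^ k - w) then 1 else 2

theorem esym_prim {θ : α → Eis} {q k : α → ℕ} {x : α → Eis} (hθ : PE θ) (hq : Primrec q)
    (hk : Primrec k) (hx : PE x) : Primrec fun a => esym (θ a) (q a) (k a) (x a) := by
  classical
  exact Primrec.ite (PE.dvd hq (hθ.mul ((hx.pow hk).sub (PE.const 1)))) (Primrec.const 0)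
    (Primrec.ite (PE.dvd hq (hθ.mul ((hx.pow hk).sub (PE.const w)))) (Primrec.const 1)
      (Primrec.const 2))

theorem esym_congr {θ : Eis} {q k : ℕ} {x y : Eis} (h : (q : Eis) ∣ x - y) :
    esym θ q k x = esym θ q k y := by
  have h1 : (q : Eis) ∣ x ^ k - y ^ k := h.trans (sub_dvd_pow_sub_pow x y k)
  have key : ∀ c : Eis, ((q : Eis) ∣ θ * (x ^ k - c) ↔ (q : Eis) ∣ θ * (y ^ k - c)) := by
    intro c
    have h2 : θ * (x ^ k - c) = θ * (y ^ k - c) + θ * (x ^ k - y ^ k) := by ring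
    rw [h2]
    exact (dvd_add_left (Dvd.dvd.mul_left h1 θ))
  have k1 := propext (key 1)
  have k2 := propext (key w)
  unfold esym
  rw [k1, k2]

end

end Pool.Agent.PTB.PRM
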